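import Pool.Agent.H391.SK.AsmF
import Pool.Agent.H391.SK.P.JAC
import Pool.Agent.H391.SK.P.CHEVH

/-!
# Long screening kernels and affine W-algebras at integral level (MP_ef3403_al, Q1)

`c : Matrix ι ι ℤ` with `IsADE c` is the Cartan matrix of a simply laced Lie algebra `g` (for simple
`g` the Dynkin diagram is connected, which is not needed). All definitions are in the files
`Pool/Agent/H391/SK/Defs.lean`, `DefsW.lean`, `DefsD.lean`, `StD.lean` (`Gen`), `StG.lean` (`cnt`).

* `Fk ι ℂ`, the ring of polynomials in `X (j, n)`, `j : ι`, `n ≥ 0`, is the Heisenberg Fock space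
  `M(1)`; `X (j, n)` stands for `√ν α_j(-n-1)` (`ν = p` in the problem) and has conformal weight
  `n + 1` (for the conformal vector `ω` of the problem as well as for `ω_st`).
* `Scr c ν i : Fk ι ℂ → Fk ι ℂ` is the operator `e^{√ν α_i}_0` on `M(1)` (with values in
  `M(1) ⊗ e^{√ν α_i} = Fk ι ℂ`): the coefficient of `z⁻¹` in
  `exp (∑_{n≥1} √ν α_i(-n) zⁿ/n) exp (-∑_{n≥1} √ν α_i(n) z⁻ⁿ/n)`, where `√ν α_i(n)`, `n ≥ 1`, acts as
  `∑_j ν c_{ij} n ∂/∂X (j, n-1)`, so that the second factor is the substitution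
  `X (j, n) ↦ X (j, n) - ν c_{ij} z^{-n-1}`.
* `KerS c ν Set.univ` is the common kernel of all `Scr c ν i`; for `ν = p` it is `K_p^+`.
* `Wk c a` is the affine W-algebra `W_k(g)`, `k = a - h^∨`, inside `M(1)`: the specialisation at `ν = a` of
  the common kernel of the screening operators over the ring `ℂ[ν]` of polynomials in the
  parameter. (By Feigin and Frenkel `W_k(g)` is the common kernel for generic `k`; the `W_k(g)` form
  a flat family with injective Miura maps, so `W_k(g)` is the specialisation of this family for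
  every `k`.) Parts (2)-(4) below prove that `Wk c a` has these properties, and part (5) shows
  that the result does not depend on this description of `W_k(g)`.

The theorem:
(1) `K_p^+ = W_{p-h^∨}(g)` for all integers `p ≥ 1`.
(2) `Wk c a` is contained in the common kernel for all `a`; (3) it is equal to it for all `a` outside of a
countable set; (4) its graded dimension is, for all `a`, the one of a space with a basis of
monomials in `w_{j,n}` (`j : ι`, `n ≥ 0`) of weight `d_j + n`, where the `d_j` are the degrees of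
homogeneous algebraically independent generators `P_j` of the invariants of the Weyl group: the
character `∏_j ∏_{n ≥ d_j} (1 - qⁿ)⁻¹` of `W_k(g)`.
(5) Every subspace of `K_p^+` with this graded dimension is equal to `K_p^+`.
(6) The symbols (homogeneous components of top degree) of the elements of `K_p^+` are exactly the
homogeneous polynomials in the algebraically independent elements `D n (P_j)`, the divided powers of
the derivation `X (j, n) ↦ (n+1) X (j, n+1)` applied to the `P_j`.
-/

namespace Pool.Agent.Results.MP_ef3403_al.ScreeningKernelW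

open MvPolynomial Pool.Agent.H391.SK

theorem result (ι : Type) [Fintype ι] [DecidableEq ι] (c : Matrix ι ι ℤ) (hc : IsADE c) :
    (∀ p : ℕ, 1 ≤ p → KerS c (p : ℂ) Set.univ = Wk c (p : ℂ)) ∧
    (∀ a : ℂ, Wk c a ≤ KerS c a Set.univ) ∧
    (∃ E : Set ℂ, E.Countable ∧ ∀ a, a ∉ E → Wk c a = KerS c a Set.univ) ∧
    ∃ (P : ι → MvPolynomial ι ℂ) (d : ι → ℕ),
      (∀ j, 0 < d j ∧ (P j).IsHomogeneous (d j)) ∧ AlgebraicIndependent ℂ P ∧
      (∀ f : MvPolynomial ι ℂ, f ∈ Algebra.adjoin ℂ (Set.range P) ↔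
        ∀ i, act0 (sr c (al i)) f = f) ∧
      (∀ (a : ℂ) (N : ℕ),
        Module.finrank ℂ (Wk c a ⊓ WtN ι ℂ N : Submodule ℂ (Fk ι ℂ)) = cnt d N) ∧
      (∀ p : ℕ, 1 ≤ p → ∀ W : Submodule ℂ (Fk ι ℂ), W ≤ KerS c (p : ℂ) Set.univ →
        (∀ N, Module.finrank ℂ (W ⊓ WtN ι ℂ N : Submodule ℂ (Fk ι ℂ)) = cnt d N) →
        W = KerS c (p : ℂ) Set.univ) ∧
      (AlgebraicIndependent ℂ fun q : ι × ℕ => D q.2 (emb (P q.1))) ∧
      ∀ p e : ℕ, 1 ≤ p → ∀ x : Fk ι ℂ, x.IsHomogeneous e →
        (x ∈ Algebra.adjoin ℂ (Set.range fun q : ι × ℕ => D q.2 (emb (P q.1))) ↔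
          ∃ a ∈ KerS c (p : ℂ) Set.univ, a.totalDegree ≤ e ∧ homogeneousComponent e a = x) := by
  have hJAC : S_JAC := P_JAC.main
  have hCHEV : S_CHEV := P_CHEV.main P_ROOT.main P_CH1.main
  obtain ⟨P, d, hd1, hd2, hG⟩ := P_CHEVH.main P_ROOT.main P_CH1.main hc
  have hFIN := fin_of hJAC hCHEV ι c hc
  have hGENE := gene ι c
  have hE1 := e1_of hJAC ι c hc Finset.univ P hG
  have hind : AlgebraicIndependent ℂ P := by
    have h1 : AlgebraicIndependent ℂ fun j : ι => (emb (P j) : Fk ι ℂ) := by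
      have h2 := hE1.1.comp (fun j : ι => ((j, 0) : ι × ℕ)) (fun a b h => (Prod.mk.inj h).1)
      have h3 : (fun j : ι => (emb (P j) : Fk ι ℂ)) =
          ((fun q : ι × ℕ => D q.2 (emb (P q.1))) ∘ fun j : ι => ((j, 0) : ι × ℕ)) := by
        funext j
        simp [D_zero_idx]
      rw [h3]; exact h2
    exact AlgebraicIndependent.of_comp emb h1
  have hd : ∀ j, 0 < d j ∧ (P j).IsHomogeneous (d j) := fun j => ⟨hd1 j (hind.ne_zero j), hd2 j⟩
  have hchar := char_of hJAC hCHEV ι c hc P d hd hG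
  have hfin := (P_SPW.main ι c).2.2.2.2
  have hfd : ∀ N : ℕ, FiniteDimensional ℂ (WtN ι ℂ N) := fun N => P_DEQ.finDim N (hfin N)
  refine ⟨hFIN, hGENE.1, hGENE.2.1, P, d, hd, hind, ?_, ?_, ?_, hE1.1, ?_⟩
  · intro f
    rw [hG f]
    simp
  · intro a N
    rw [hGENE.2.2 a 1 N, ← hchar 1 N le_rfl]
    have := hFIN 1 le_rfl
    rw [Nat.cast_one] at this ⊢
    rw [this]
  · intro p hp W hW hN
    refine le_antisymm hW fun f hf => ?_
    have hcomp : ∀ N, weightedHomogeneousComponent (fun p : ι × ℕ => p.2 + 1) N f ∈ W := by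
      intro N
      have hK : W ⊓ WtN ι ℂ N = KerS c (p : ℂ) Set.univ ⊓ WtN ι ℂ N := by
        have := hfd N
        have : FiniteDimensional ℂ (KerS c (p : ℂ) Set.univ ⊓ WtN ι ℂ N : Submodule ℂ (Fk ι ℂ)) :=
          Submodule.finiteDimensional_of_le inf_le_right
        refine Submodule.eq_of_le_of_finrank_eq (inf_le_inf_right _ hW) ?_
        rw [hN N, hchar p N hp]
      have h1 : weightedHomogeneousComponent (fun p : ι × ℕ => p.2 + 1) N f ∈
          KerS c (p : ℂ) Set.univ ⊓ WtN ι ℂ N :=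
        ⟨(P_SPW.main ι c).2.2.2.1 ℂ (p : ℂ) Set.univ N f hf,
          weightedHomogeneousComponent_mem _ _ _⟩
      rw [← hK] at h1
      exact h1.1
    have hsum := sum_weightedHomogeneousComponent (fun p : ι × ℕ => p.2 + 1) f
    rw [← hsum]
    exact finsum_induction (· ∈ W) W.zero_mem (fun _ _ => W.add_mem) hcomp
  · intro p e hp x hx
    have := sym_of hJAC hCHEV ι c hc P hG p e hp x hx
    rw [← this]
    have h2 : (Set.range fun q : ι × ℕ => D q.2 (emb (P q.1))) =
        {g | ∃ (j : ι) (n : ℕ), g = D n (emb (P j))} := by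
      ext g
      simp [eq_comm]
    rw [h2]; rfl

end Pool.Agent.Results.MP_ef3403_al.ScreeningKernelW
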